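import Mathlib

open Filter Topology

namespace Pool.Agent.W_MP_8d662a_an

/-- A hereditary family of finite subsets of `ℕ` which covers `ℕ`. -/
structure Family where
  sets : Set (Finset ℕ)
  hereditary : ∀ A ∈ sets, ∀ B : Finset ℕ, B ⊆ A → B ∈ sets
  covers : ∀ k : ℕ, ∃ A ∈ sets, k ∈ A

/-- The extended norm `sup {∑_{k ∈ A} |x k| : A ∈ F}`, with values in `[0,∞]`. -/
noncomputable def Family.extNorm (F : Family) (x : ℕ → ℝ) : ENNReal :=
  ⨆ A ∈ F.sets, ∑ k ∈ A, ENNReal.ofReal |x k|

/-- The coordinate projection onto `[n,∞)`. -/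
def tailProj (n : ℕ) (x : ℕ → ℝ) : ℕ → ℝ := fun k => if n ≤ k then x k else 0

theorem tailProj_add (n : ℕ) (x y : ℕ → ℝ) : tailProj n (x + y) = tailProj n x + tailProj n y := by
  funext k
  by_cases h : n ≤ k <;> simp [tailProj, h]

theorem tailProj_smul (n : ℕ) (c : ℝ) (x : ℕ → ℝ) : tailProj n (c • x) = c • tailProj n x := by
  funext k
  by_cases h : n ≤ k <;> simp [tailProj, h]

theorem tailProj_zero' (n : ℕ) : tailProj n (0 : ℕ → ℝ) = 0 := by
  funext k
  by_cases h : n ≤ k <;> simp [tailProj]

namespace Family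

variable (F : Family)

theorem extNorm_zero : F.extNorm 0 = 0 := by
  simp [Family.extNorm]

theorem extNorm_add_le (x y : ℕ → ℝ) : F.extNorm (x + y) ≤ F.extNorm x + F.extNorm y := by
  unfold Family.extNorm
  refine iSup₂_le fun A hA => ?_
  calc ∑ k ∈ A, ENNReal.ofReal |(x + y) k|
      ≤ ∑ k ∈ A, (ENNReal.ofReal |x k| + ENNReal.ofReal |y k|) := by
        refine Finset.sum_le_sum fun k _ => ?_
        rw [← ENNReal.ofReal_add (abs_nonneg _) (abs_nonneg _)]
        exact ENNReal.ofReal_le_ofReal (abs_add_le _ _)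
    _ = ∑ k ∈ A, ENNReal.ofReal |x k| + ∑ k ∈ A, ENNReal.ofReal |y k| := Finset.sum_add_distrib
    _ ≤ _ := add_le_add (le_iSup₂_of_le A hA le_rfl) (le_iSup₂_of_le A hA le_rfl)

theorem extNorm_smul (c : ℝ) (x : ℕ → ℝ) : F.extNorm (c • x) = ENNReal.ofReal |c| * F.extNorm x := by
  unfold Family.extNorm
  rw [ENNReal.mul_iSup]
  congr 1
  funext A
  rw [ENNReal.mul_iSup]
  congr 1
  funext hA
  rw [Finset.mul_sum]
  refine Finset.sum_congr rfl fun k _ => ?_
  rw [Pi.smul_apply, smul_eq_mul, abs_mul, ENNReal.ofReal_mul (abs_nonneg _)]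

/-- The combinatorial space `X_F` as a linear subspace of `ℝ^ℕ`: all `x` whose tails tend to `0`
in the extended norm. -/
def space : Submodule ℝ (ℕ → ℝ) where
  carrier := {x | Tendsto (fun n => F.extNorm (tailProj n x)) atTop (𝓝 0)}
  zero_mem' := by
    simp [tailProj_zero', extNorm_zero]
  add_mem' := by
    intro x y hx hy
    have h : Tendsto (fun n => F.extNorm (tailProj n x) + F.extNorm (tailProj n y)) atTop (𝓝 (0 + 0)) :=
      Tendsto.add hx hy
    rw [add_zero] at h
    refine tendsto_of_tendsto_of_tendsto_of_le_of_le tendsto_const_nhds h (fun _ => zero_le) ?_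
    intro n
    simp only [tailProj_add]
    exact F.extNorm_add_le _ _
  smul_mem' := by
    intro c x hx
    have h : Tendsto (fun n => ENNReal.ofReal |c| * F.extNorm (tailProj n x)) atTop
        (𝓝 (ENNReal.ofReal |c| * 0)) :=
      ENNReal.Tendsto.const_mul hx (Or.inr ENNReal.ofReal_ne_top)
    rw [mul_zero] at h
    simpa only [Set.mem_ofPred_eq, tailProj_smul, extNorm_smul] using h

theorem extNorm_le_head (x : ℕ → ℝ) (n : ℕ) :
    F.extNorm x ≤ ∑ k ∈ Finset.range n, ENNReal.ofReal |x k| + F.extNorm (tailProj n x) := by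
  unfold Family.extNorm
  refine iSup₂_le fun A hA => ?_
  calc ∑ k ∈ A, ENNReal.ofReal |x k|
      = ∑ k ∈ A with k < n, ENNReal.ofReal |x k|
          + ∑ k ∈ A with ¬ k < n, ENNReal.ofReal |x k| :=
        (Finset.sum_filter_add_sum_filter_not A (fun k => k < n) _).symm
    _ ≤ _ := by
        refine add_le_add ?_ ?_
        · refine Finset.sum_le_sum_of_subset ?_
          intro k hk
          simp only [Finset.mem_filter] at hk
          simpa using hk.2
        · refine le_trans ?_ (le_iSup₂_of_le A hA le_rfl)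
          refine le_trans ?_ (Finset.sum_le_sum_of_subset (Finset.filter_subset (fun k => ¬ k < n) A))
          refine Finset.sum_le_sum fun k hk => ?_
          simp only [Finset.mem_filter, not_lt] at hk
          simp [tailProj, hk.2]

theorem extNorm_ne_top {x : ℕ → ℝ} (hx : x ∈ F.space) : F.extNorm x ≠ ⊤ := by
  have h : Tendsto (fun n => F.extNorm (tailProj n x)) atTop (𝓝 0) := hx
  obtain ⟨n, hn⟩ := (h.eventually_lt_const (show (0 : ENNReal) < 1 from zero_lt_one)).exists
  refine ne_top_of_le_ne_top ?_ (F.extNorm_le_head x n)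
  refine ENNReal.add_ne_top.2 ⟨?_, (hn.trans ENNReal.one_lt_top).ne⟩
  exact ENNReal.sum_ne_top.2 fun k _ => ENNReal.ofReal_ne_top

theorem extNorm_eq_zero {x : ℕ → ℝ} (hx : F.extNorm x = 0) : x = 0 := by
  funext k
  obtain ⟨A, hA, hk⟩ := F.covers k
  have h1 : ∑ k ∈ A, ENNReal.ofReal |x k| ≤ F.extNorm x := le_iSup₂_of_le A hA le_rfl
  rw [hx, nonpos_iff_eq_zero, Finset.sum_eq_zero_iff] at h1
  have h2 := h1 k hk
  rw [ENNReal.ofReal_eq_zero] at h2
  simpa using h2

/-- The combinatorial Banach space `X_F`. -/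
def X : Type := F.space

noncomputable instance : AddCommGroup F.X := Submodule.addCommGroup F.space
noncomputable instance : Module ℝ F.X := Submodule.module F.space

/-- The coordinates of an element of `X_F`. -/
def X.coord {F : Family} (x : F.X) : ℕ → ℝ := x.1

/-- The norm of `X_F`. -/
noncomputable instance : Norm F.X := ⟨fun x => (F.extNorm x.coord).toReal⟩

theorem norm_def (x : F.X) : ‖x‖ = (F.extNorm x.coord).toReal := rfl

theorem coord_add (x y : F.X) : (x + y).coord = x.coord + y.coord := rfl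
theorem coord_sub (x y : F.X) : (x - y).coord = x.coord - y.coord := rfl
theorem coord_smul (c : ℝ) (x : F.X) : (c • x).coord = c • x.coord := rfl
theorem coord_mem (x : F.X) : x.coord ∈ F.space := x.2

theorem normCore : NormedSpace.Core ℝ F.X where
  norm_nonneg x := ENNReal.toReal_nonneg
  norm_smul c x := by
    rw [norm_def, norm_def, coord_smul, extNorm_smul, ENNReal.toReal_mul,
      ENNReal.toReal_ofReal (abs_nonneg _), Real.norm_eq_abs]
  norm_triangle x y := by
    rw [norm_def, norm_def, norm_def, coord_add,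
      ← ENNReal.toReal_add (F.extNorm_ne_top (F.coord_mem x)) (F.extNorm_ne_top (F.coord_mem y))]
    exact ENNReal.toReal_mono (ENNReal.add_ne_top.2 ⟨F.extNorm_ne_top (F.coord_mem x),
      F.extNorm_ne_top (F.coord_mem y)⟩) (F.extNorm_add_le _ _)
  norm_eq_zero_iff x := by
    constructor
    · intro h
      rw [norm_def, ENNReal.toReal_eq_zero_iff] at h
      rcases h with h | h
      · exact Subtype.ext (F.extNorm_eq_zero h)
      · exact absurd h (F.extNorm_ne_top (F.coord_mem x))
    · rintro rfl
      rw [norm_def]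
      have : (0 : F.X).coord = 0 := rfl
      rw [this, extNorm_zero, ENNReal.toReal_zero]

noncomputable instance : NormedAddCommGroup F.X := NormedAddCommGroup.ofCore F.normCore
noncomputable instance : NormedSpace ℝ F.X := NormedSpace.ofCore F.normCore

end Family

/-- A normed space has the Schur property if weakly convergent sequences converge in norm. -/
def SchurProperty (E : Type) [NormedAddCommGroup E] [NormedSpace ℝ E] : Prop :=
  ∀ (x : ℕ → E) (a : E),
    (∀ f : E →L[ℝ] ℝ, Tendsto (fun n => f (x n)) atTop (𝓝 (f a))) → Tendsto x atTop (𝓝 a)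

/-- The point of the Cantor space `{0,1}^ℕ` identified with the set `S`. -/
noncomputable def toCantor (S : Set ℕ) : ℕ → Bool := by
  classical exact fun k => decide (k ∈ S)

/-- The closure of the family in `P(ℕ) = {0,1}^ℕ` (product topology). -/
def Family.bar (F : Family) : Set (Set ℕ) :=
  {S | toCantor S ∈ closure {f : ℕ → Bool | ∃ A ∈ F.sets, f = toCantor (A : Set ℕ)}}

/-- Property `(S*)`: every sequence of pairwise disjoint members of the family has infinitely many
terms covered by the union of some finite subset of the closure of the family. -/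
def PropertySStar (F : Family) : Prop :=
  ∀ G : ℕ → Finset ℕ, (∀ n, G n ∈ F.sets) → (∀ m n, m ≠ n → Disjoint (G m) (G n)) →
    ∃ C : Set (Set ℕ), C.Finite ∧ C ⊆ F.bar ∧ {n | (G n : Set ℕ) ⊆ ⋃₀ C}.Infinite

end Pool.Agent.W_MP_8d662a_an
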