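import Mathlib

open Filter Topology

namespace Pool.Agent.W_MP_8d662a_an

/-- sign attached to a boolean -/
def sgn (b : Bool) : ℝ := if b then 1 else -1

theorem abs_sgn (b : Bool) : |sgn b| = 1 := by
  cases b <;> simp [sgn]

theorem abs_sgn_mul (b : Bool) (t : ℝ) : |sgn b * t| = |t| := by
  rw [abs_mul, abs_sgn, one_mul]

/-- boolean giving the sign of a real number -/
noncomputable def pos (t : ℝ) : Bool := decide (0 ≤ t)

theorem sgn_pos_mul (t : ℝ) : sgn (pos t) * t = |t| := by
  unfold sgn pos
  by_cases h : 0 ≤ t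
  · simp [h, abs_of_nonneg h]
  · push Not at h
    simp [not_le.2 h, abs_of_neg h]

theorem continuous_sum_sgn {y : ℕ → ℝ} (hy : Summable fun k => |y k|) :
    Continuous fun b : ℕ → Bool => ∑' k, sgn (b k) * y k := by
  refine continuous_tsum (u := fun k => |y k|) ?_ hy ?_
  · intro k
    have h1 : Continuous fun b : ℕ → Bool => b k := continuous_apply k
    have h2 : Continuous fun c : Bool => sgn c * y k := continuous_of_discreteTopology
    exact h2.comp h1
  · intro k b
    rw [Real.norm_eq_abs, abs_sgn_mul]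

/-- Schur's theorem for `ℓ¹`, tested only against sign sequences. -/
theorem schur_l1 (y : ℕ → ℕ → ℝ) (hy : ∀ n, Summable fun k => |y n k|)
    (h : ∀ b : ℕ → Bool, Tendsto (fun n => ∑' k, sgn (b k) * y n k) atTop (𝓝 0)) :
    Tendsto (fun n => ∑' k, |y n k|) atTop (𝓝 0) := by
  have hsum : ∀ (b : ℕ → Bool) (n : ℕ), Summable fun k => sgn (b k) * y n k := fun b n =>
    Summable.of_abs ((hy n).congr fun k => (abs_sgn_mul _ _).symm)
  -- coordinatewise convergence
  have hcoord : ∀ k, Tendsto (fun n => y n k) atTop (𝓝 0) := by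
    intro k
    have h1 := h (fun _ => true)
    have h2 := h (fun j => decide (j ≠ k))
    have h3 := (h1.sub h2).div_const 2
    simp only [sub_self, zero_div] at h3
    refine h3.congr fun n => ?_
    rw [← (hsum (fun _ => true) n).tsum_sub (hsum (fun j => decide (j ≠ k)) n)]
    rw [tsum_eq_single k]
    · simp [sgn]
    · intro j hj
      simp [sgn, hj]
  rw [Metric.tendsto_atTop]
  intro ε hε
  -- Baire category
  let E : ℕ → Set (ℕ → Bool) := fun N => {b | ∀ n ≥ N, |∑' k, sgn (b k) * y n k| ≤ ε / 4}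
  have hclosed : ∀ N, IsClosed (E N) := by
    intro N
    have : E N = ⋂ n ≥ N, {b | |∑' k, sgn (b k) * y n k| ≤ ε / 4} := by
      ext b
      simp [E]
    rw [this]
    refine isClosed_biInter fun n _ => ?_
    exact isClosed_le (continuous_abs.comp (continuous_sum_sgn (hy n))) continuous_const
  have hunion : ⋃ N, E N = Set.univ := by
    rw [Set.eq_univ_iff_forall]
    intro b
    rw [Set.mem_iUnion]
    obtain ⟨N, hN⟩ := (Metric.tendsto_atTop.1 (h b)) (ε / 4) (by positivity)
    refine ⟨N, fun n hn => ?_⟩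
    have := hN n hn
    rw [Real.dist_eq, sub_zero] at this
    exact this.le
  obtain ⟨N, b0, hb0⟩ := nonempty_interior_of_iUnion_of_closed hclosed hunion
  have hopen := isOpen_interior (s := E N)
  rw [isOpen_pi_iff] at hopen
  obtain ⟨I, u, hu, hsub⟩ := hopen b0 hb0
  -- finitely many coordinates are eventually small
  have hI : Tendsto (fun n => ∑ k ∈ I, 2 * |y n k|) atTop (𝓝 0) := by
    have : Tendsto (fun n => ∑ k ∈ I, 2 * |y n k|) atTop (𝓝 (∑ k ∈ I, 2 * |(0 : ℝ)|)) := by
      refine tendsto_finsetSum _ fun k _ => ?_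
      exact ((hcoord k).abs).const_mul 2
    simpa using this
  obtain ⟨M, hM⟩ := (Metric.tendsto_atTop.1 hI) (ε / 4) (by positivity)
  refine ⟨max N M, fun n hn => ?_⟩
  have hnN : n ≥ N := le_trans (le_max_left _ _) hn
  have hnM : n ≥ M := le_trans (le_max_right _ _) hn
  have hMn := hM n hnM
  rw [Real.dist_eq, sub_zero] at hMn
  have hMn' : ∑ k ∈ I, 2 * |y n k| < ε / 4 := lt_of_le_of_lt (le_abs_self _) hMn
  classical
  let b : ℕ → Bool := fun k => if k ∈ I then b0 k else pos (y n k)
  have hbE : b ∈ E N := by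
    refine interior_subset (hsub ?_)
    intro k hk
    have hk' : k ∈ I := hk
    simp only [b, hk', if_true]
    exact (hu k hk').2
  have hbn := hbE n hnN
  have hfin : Summable fun k => if k ∈ I then 2 * |y n k| else 0 :=
    summable_of_ne_finset_zero (s := I) (fun k hk => by simp [hk])
  have hle : ∑' k, |y n k| ≤ ∑' k, (sgn (b k) * y n k + if k ∈ I then 2 * |y n k| else 0) := by
    refine Summable.tsum_le_tsum ?_ (hy n) ((hsum b n).add hfin)
    intro k
    by_cases hk : k ∈ I
    · simp only [hk, if_true]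
      have : -|y n k| ≤ sgn (b k) * y n k := by
        have := neg_abs_le (sgn (b k) * y n k)
        rwa [abs_sgn_mul] at this
      linarith
    · simp only [hk, if_false, add_zero, b]
      rw [sgn_pos_mul]
  have hI2 : ∑' k, (if k ∈ I then 2 * |y n k| else 0) = ∑ k ∈ I, 2 * |y n k| := by
    rw [tsum_eq_sum (s := I) (fun k hk => by simp [hk])]
    exact Finset.sum_congr rfl fun k hk => by simp [hk]
  rw [(hsum b n).tsum_add hfin, hI2] at hle
  have h5 : ∑' k, sgn (b k) * y n k ≤ ε / 4 := le_trans (le_abs_self _) hbn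
  have h6 : 0 ≤ ∑' k, |y n k| := tsum_nonneg fun k => abs_nonneg _
  rw [Real.dist_eq, sub_zero, abs_of_nonneg h6]
  linarith

end Pool.Agent.W_MP_8d662a_an
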