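import Pool.Agent.W_MP_8d662a_an.Defs
import Pool.Agent.W_MP_8d662a_an.Schur

open Filter Topology

namespace Pool.Agent.W_MP_8d662a_an

/-- first endpoint of the edge coded by `k` -/
def ea (k : ℕ) : ℕ := k.unpair.1
/-- second endpoint of the edge coded by `k` -/
def eb (k : ℕ) : ℕ := k.unpair.1 + k.unpair.2 + 1

theorem ea_lt_eb (k : ℕ) : ea k < eb k := by
  unfold ea eb; omega

/-- the code of the edge `{i,j}`, `i < j` -/
def ec (i j : ℕ) : ℕ := Nat.pair i (j - i - 1)

theorem ea_ec (i j : ℕ) : ea (ec i j) = i := by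
  simp [ea, ec]

theorem eb_ec {i j : ℕ} (h : i < j) : eb (ec i j) = j := by
  simp [eb, ec]; omega

theorem ec_ea_eb (k : ℕ) : ec (ea k) (eb k) = k := by
  have : eb k - ea k - 1 = k.unpair.2 := by
    unfold ea eb; omega
  unfold ec
  rw [this]
  simp [ea]

/-- all edges inside the `n`-th block of vertices `[2^n, 2^(n+1))` -/
def block (n : ℕ) : Finset ℕ :=
  (((Finset.Ico (2 ^ n) (2 ^ (n + 1))) ×ˢ (Finset.Ico (2 ^ n) (2 ^ (n + 1)))).filter
    (fun p => p.1 < p.2)).image (fun p => ec p.1 p.2)

theorem mem_block {n k : ℕ} : k ∈ block n ↔ 2 ^ n ≤ ea k ∧ eb k < 2 ^ (n + 1) := by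
  unfold block
  simp only [Finset.mem_image, Finset.mem_filter, Finset.mem_product, Finset.mem_Ico, Prod.exists]
  constructor
  · rintro ⟨i, j, ⟨⟨⟨h1, h2⟩, h3, h4⟩, h5⟩, rfl⟩
    rw [ea_ec, eb_ec h5]
    exact ⟨h1, h4⟩
  · rintro ⟨h1, h2⟩
    have := ea_lt_eb k
    exact ⟨ea k, eb k, ⟨⟨⟨h1, by omega⟩, by omega, h2⟩, this⟩, ec_ea_eb k⟩

theorem block_disjoint {m n : ℕ} (h : m ≠ n) : Disjoint (block m) (block n) := by
  rw [Finset.disjoint_left]
  intro k hm hn
  rw [mem_block] at hm hn
  have hk := ea_lt_eb k
  rcases lt_or_gt_of_ne h with h | h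
  · have : 2 ^ (m + 1) ≤ 2 ^ n := Nat.pow_le_pow_right (by norm_num) h
    omega
  · have : 2 ^ (n + 1) ≤ 2 ^ m := Nat.pow_le_pow_right (by norm_num) h
    omega

/-- a colouring `c` properly colours the edge set `A` -/
def Cuts (c : ℕ → Bool) (A : Set ℕ) : Prop := ∀ k ∈ A, c (ea k) ≠ c (eb k)

/-- The family: finite bipartite edge sets, together with all subsets of the blocks. -/
def exFamily : Family where
  sets := {A | (∃ c, Cuts c A) ∨ ∃ n, A ⊆ block n}
  hereditary := by
    rintro A (⟨c, hc⟩ | ⟨n, hn⟩) B hBA
    · exact Or.inl ⟨c, fun k hk => hc k (hBA hk)⟩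
    · exact Or.inr ⟨n, hBA.trans hn⟩
  covers := by
    intro k
    refine ⟨{k}, Or.inl ⟨fun v => decide (v = ea k), ?_⟩, by simp⟩
    intro j hj
    have : j = k := by simpa using hj
    subst this
    have := (ea_lt_eb j).ne'
    simp [this]

/-- Weighted max-cut: some colouring cuts at least half of the total weight. -/
theorem exists_cut (A : Finset ℕ) (w : ℕ → ℝ) (_hw : ∀ k, 0 ≤ w k) :
    ∃ c : ℕ → Bool, ∑ k ∈ A, w k ≤ 2 * ∑ k ∈ A with c (ea k) ≠ c (eb k), w k := by
  classical
  have key : ∀ N : ℕ, ∃ c : ℕ → Bool, ∀ v < N,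
      ∑ k ∈ A with eb k = v, w k ≤
        2 * ∑ k ∈ A with (eb k = v ∧ c (ea k) ≠ c (eb k)), w k := by
    intro N
    induction N with
    | zero => exact ⟨fun _ => true, by simp⟩
    | succ N ih =>
      obtain ⟨c, hc⟩ := ih
      -- total weight of edges ending at `N` with first end coloured `true` / `false`
      let T := ∑ k ∈ A with (eb k = N ∧ c (ea k) = true), w k
      let S := ∑ k ∈ A with (eb k = N ∧ c (ea k) = false), w k
      have hTS : ∑ k ∈ A with eb k = N, w k = T + S := by
        have := Finset.sum_filter_add_sum_filter_not (A.filter (fun k => eb k = N))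
          (fun k => c (ea k) = true) w
        rw [← this, Finset.filter_filter, Finset.filter_filter]
        congr 1
        refine Finset.sum_congr ?_ fun _ _ => rfl
        ext k
        simp
      let d : Bool := if S ≤ T then false else true
      refine ⟨Function.update c N d, ?_⟩
      intro v hv
      have hupd : ∀ k, eb k = v →
          (Function.update c N d (ea k) = c (ea k)) := by
        intro k hk
        rw [Function.update_of_ne]
        have := ea_lt_eb k
        omega
      rcases Nat.lt_succ_iff_lt_or_eq.1 hv with hv' | rfl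
      · have h1 := hc v hv'
        refine h1.trans (le_of_eq ?_)
        congr 1
        refine Finset.sum_congr ?_ fun _ _ => rfl
        ext k
        simp only [Finset.mem_filter]
        constructor
        · rintro ⟨hA, hk, hne⟩
          refine ⟨hA, hk, ?_⟩
          rw [hupd k hk, Function.update_of_ne (by omega)]
          exact hne
        · rintro ⟨hA, hk, hne⟩
          refine ⟨hA, hk, ?_⟩
          rw [hupd k hk, Function.update_of_ne (by omega)] at hne
          exact hne
      · rw [hTS]
        by_cases hST : S ≤ T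
        · have hd : d = false := by simp [d, hST]
          have : ∑ k ∈ A with (eb k = v ∧ Function.update c v d (ea k) ≠
              Function.update c v d (eb k)), w k = T := by
            refine Finset.sum_congr ?_ fun _ _ => rfl
            ext k
            simp only [Finset.mem_filter]
            constructor
            · rintro ⟨hA, hk, hne⟩
              refine ⟨hA, hk, ?_⟩
              rw [hupd k hk, hk, Function.update_self, hd] at hne
              simpa using hne
            · rintro ⟨hA, hk, hne⟩
              refine ⟨hA, hk, ?_⟩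
              rw [hupd k hk, hk, Function.update_self, hd, hne]
              simp
          rw [this]
          linarith
        · have hd : d = true := by simp [d, hST]
          have : ∑ k ∈ A with (eb k = v ∧ Function.update c v d (ea k) ≠
              Function.update c v d (eb k)), w k = S := by
            refine Finset.sum_congr ?_ fun _ _ => rfl
            ext k
            simp only [Finset.mem_filter]
            constructor
            · rintro ⟨hA, hk, hne⟩
              refine ⟨hA, hk, ?_⟩
              rw [hupd k hk, hk, Function.update_self, hd] at hne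
              simpa using hne
            · rintro ⟨hA, hk, hne⟩
              refine ⟨hA, hk, ?_⟩
              rw [hupd k hk, hk, Function.update_self, hd, hne]
              simp
          rw [this]
          linarith
  -- take `N` larger than all endpoints
  obtain ⟨c, hc⟩ := key (A.sup eb + 1)
  refine ⟨c, ?_⟩
  have hmap : ∀ k ∈ A, eb k ∈ Finset.range (A.sup eb + 1) := by
    intro k hk
    rw [Finset.mem_range]
    exact Nat.lt_succ_of_le (Finset.le_sup (f := eb) hk)
  rw [← Finset.sum_fiberwise_of_maps_to hmap w]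
  rw [← Finset.sum_fiberwise_of_maps_to (s := A.filter fun k => c (ea k) ≠ c (eb k))
    (t := Finset.range (A.sup eb + 1)) (g := eb)
    (fun k hk => hmap k (Finset.mem_of_mem_filter k hk)) w]
  rw [Finset.mul_sum]
  refine Finset.sum_le_sum fun v hv => ?_
  have := hc v (Finset.mem_range.1 hv)
  refine this.trans (le_of_eq ?_)
  congr 1
  refine Finset.sum_congr ?_ fun _ _ => rfl
  ext k
  simp only [Finset.mem_filter]
  tauto

/-- The norm of the example dominates half the `ℓ¹` norm (finite sums). -/
theorem sum_le_two_extNorm (x : ℕ → ℝ) (hx : x ∈ exFamily.space) (A : Finset ℕ) :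
    ∑ k ∈ A, |x k| ≤ 2 * (exFamily.extNorm x).toReal := by
  obtain ⟨c, hc⟩ := exists_cut A (fun k => |x k|) (fun k => abs_nonneg _)
  refine hc.trans ?_
  have hmem : (A.filter fun k => c (ea k) ≠ c (eb k)) ∈ exFamily.sets := by
    refine Or.inl ⟨c, ?_⟩
    intro k hk
    have : k ∈ A.filter fun k => c (ea k) ≠ c (eb k) := hk
    exact (Finset.mem_filter.1 this).2
  have h1 : ∑ k ∈ A with c (ea k) ≠ c (eb k), ENNReal.ofReal |x k| ≤ exFamily.extNorm x :=
    le_iSup₂_of_le (f := fun (A : Finset ℕ) (_ : A ∈ exFamily.sets) =>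
      ∑ k ∈ A, ENNReal.ofReal |x k|) _ hmem le_rfl
  rw [← ENNReal.ofReal_sum_of_nonneg (fun k _ => abs_nonneg _)] at h1
  have h2 := ENNReal.toReal_mono (exFamily.extNorm_ne_top hx) h1
  rw [ENNReal.toReal_ofReal (Finset.sum_nonneg fun k _ => abs_nonneg _)] at h2
  linarith

theorem summable_coord (x : exFamily.X) : Summable fun k => |x.coord k| :=
  summable_of_sum_le (fun k => abs_nonneg _) (fun A => sum_le_two_extNorm x.coord (exFamily.coord_mem x) A)

theorem tsum_le_two_norm (x : exFamily.X) : ∑' k, |x.coord k| ≤ 2 * ‖x‖ :=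
  Real.tsum_le_of_sum_le (fun k => abs_nonneg _)
    (fun A => sum_le_two_extNorm x.coord (exFamily.coord_mem x) A)

theorem norm_le_tsum (x : exFamily.X) : ‖x‖ ≤ ∑' k, |x.coord k| := by
  rw [Family.norm_def]
  have h0 : 0 ≤ ∑' k, |x.coord k| := tsum_nonneg fun k => abs_nonneg _
  refine ENNReal.toReal_le_of_le_ofReal h0 ?_
  refine iSup₂_le fun A _ => ?_
  rw [← ENNReal.ofReal_sum_of_nonneg (fun k _ => abs_nonneg _)]
  exact ENNReal.ofReal_le_ofReal ((summable_coord x).sum_le_tsum A (fun k _ => abs_nonneg _))

/-- the functional attached to a sign sequence -/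
noncomputable def signFun (b : ℕ → Bool) : exFamily.X →L[ℝ] ℝ :=
  LinearMap.mkContinuous
    { toFun := fun x => ∑' k, sgn (b k) * x.coord k
      map_add' := by
        intro x y
        have hs : ∀ z : exFamily.X, Summable fun k => sgn (b k) * z.coord k := fun z =>
          Summable.of_abs ((summable_coord z).congr fun k => (abs_sgn_mul _ _).symm)
        rw [← (hs x).tsum_add (hs y)]
        refine tsum_congr fun k => ?_
        rw [Family.coord_add, Pi.add_apply]
        ring
      map_smul' := by
        intro c x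
        rw [RingHom.id_apply, smul_eq_mul, ← tsum_mul_left]
        refine tsum_congr fun k => ?_
        rw [Family.coord_smul, Pi.smul_apply, smul_eq_mul]
        ring } 2
    (by
      intro x
      have hs : Summable fun k => ‖sgn (b k) * x.coord k‖ := by
        refine (summable_coord x).congr fun k => ?_
        rw [Real.norm_eq_abs, abs_sgn_mul]
      refine (norm_tsum_le_tsum_norm hs).trans ?_
      refine le_trans (le_of_eq ?_) (tsum_le_two_norm x)
      exact tsum_congr fun k => by rw [Real.norm_eq_abs, abs_sgn_mul])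

theorem signFun_apply (b : ℕ → Bool) (x : exFamily.X) :
    signFun b x = ∑' k, sgn (b k) * x.coord k := rfl

theorem exFamily_schur : SchurProperty exFamily.X := by
  intro x a hxa
  have h1 : Tendsto (fun n => ∑' k, |(x n - a).coord k|) atTop (𝓝 0) := by
    refine schur_l1 (fun n => (x n - a).coord) (fun n => summable_coord _) ?_
    intro b
    have h2 := (hxa (signFun b)).sub_const (signFun b a)
    rw [sub_self] at h2
    refine h2.congr fun n => ?_
    rw [← map_sub, signFun_apply]
  rw [tendsto_iff_norm_sub_tendsto_zero]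
  exact squeeze_zero (fun n => norm_nonneg _) (fun n => norm_le_tsum _) h1

/-- finite subsets of a member of the closure are in the family -/
theorem mem_sets_of_mem_closure {F : Family} {S : Set ℕ} (hS : S ∈ F.bar)
    (B : Finset ℕ) (hB : (B : Set ℕ) ⊆ S) : B ∈ F.sets := by
  have hS' : toCantor S ∈ closure {f : ℕ → Bool | ∃ A ∈ F.sets, f = toCantor (A : Set ℕ)} := hS
  rw [mem_closure_iff] at hS'
  let U : Set (ℕ → Bool) := {f | ∀ k ∈ B, f k = true}
  have hU : IsOpen U := by
    have : U = ⋂ k ∈ B, {f : ℕ → Bool | f k = true} := by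
      ext f
      simp [U]
    rw [this]
    refine isOpen_biInter_finset fun k _ => ?_
    have hc : Continuous fun f : ℕ → Bool => f k := continuous_apply k
    exact (isOpen_discrete {true}).preimage hc
  have hSU : toCantor S ∈ U := by
    intro k hk
    have : k ∈ S := hB hk
    simp [toCantor, this]
  obtain ⟨f, hfU, A, hA, rfl⟩ := hS' U hU hSU
  refine F.hereditary A hA B ?_
  intro k hk
  have := hfU k hk
  simpa [toCantor] using this

theorem exFamily_not_SStar : ¬ PropertySStar exFamily := by
  intro h
  obtain ⟨C, hfin, hsub, hinf⟩ := h block (fun n => Or.inr ⟨n, Finset.Subset.refl _⟩)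
    (fun m n hmn => block_disjoint hmn)
  classical
  -- a member of the closure is bipartite on all blocks but one
  have hbad : ∀ S ∈ C, {n | ¬ ∃ c, Cuts c (S ∩ block n)}.Subsingleton := by
    intro S hS n hn n' hn'
    by_contra hne
    have hne1 : (S ∩ (block n : Set ℕ)).Nonempty := by
      by_contra hemp
      rw [Set.not_nonempty_iff_eq_empty] at hemp
      exact hn ⟨fun _ => true, by rw [hemp]; intro k hk; exact absurd hk (Set.notMem_empty k)⟩
    have hne2 : (S ∩ (block n' : Set ℕ)).Nonempty := by
      by_contra hemp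
      rw [Set.not_nonempty_iff_eq_empty] at hemp
      exact hn' ⟨fun _ => true, by rw [hemp]; intro k hk; exact absurd hk (Set.notMem_empty k)⟩
    let B : Finset ℕ := (block n ∪ block n').filter (fun k => k ∈ S)
    have hB : (B : Set ℕ) ⊆ S := by
      intro k hk
      have : k ∈ B := hk
      exact (Finset.mem_filter.1 this).2
    rcases mem_sets_of_mem_closure (hsub hS) B hB with ⟨c, hc⟩ | ⟨m, hm⟩
    · refine hn ⟨c, ?_⟩
      rintro k ⟨hkS, hk⟩
      exact hc k (by simpa [B] using ⟨Or.inl hk, hkS⟩)
    · obtain ⟨k, hkS, hk⟩ := hne1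
      obtain ⟨k', hkS', hk'⟩ := hne2
      have h1 : k ∈ block m := hm (by simpa [B] using ⟨Or.inl hk, hkS⟩)
      have h2 : k' ∈ block m := hm (by simpa [B] using ⟨Or.inr hk', hkS'⟩)
      have e1 : m = n := by
        by_contra hmn
        exact Finset.disjoint_left.1 (block_disjoint hmn) h1 hk
      have e2 : m = n' := by
        by_contra hmn
        exact Finset.disjoint_left.1 (block_disjoint hmn) h2 hk'
      exact hne (e1.symm.trans e2)
  have hbadfin : (⋃ S ∈ C, {n | ¬ ∃ c, Cuts c (S ∩ block n)}).Finite :=
    hfin.biUnion fun S hS => (hbad S hS).finite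
  have : Fintype C := hfin.fintype
  -- a large good block
  obtain ⟨n, hn, hnbad, hnlarge⟩ : ∃ n, (block n : Set ℕ) ⊆ ⋃₀ C ∧
      n ∉ (⋃ S ∈ C, {n | ¬ ∃ c, Cuts c (S ∩ block n)}) ∧ Fintype.card C < n := by
    have h1 := (hinf.sdiff hbadfin).sdiff (Set.finite_Iic (Fintype.card C))
    obtain ⟨n, ⟨h2, h3⟩, h4⟩ := h1.nonempty
    exact ⟨n, h2, h3, by simpa using h4⟩
  have hgood : ∀ S : C, ∃ c, Cuts c ((S : Set ℕ) ∩ block n) := by
    intro S
    by_contra hcon
    exact hnbad (Set.mem_biUnion S.2 hcon)
  choose c hc using hgood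
  have hinj : Set.InjOn (fun v : ℕ => fun S : C => c S v)
      (Finset.Ico (2 ^ n) (2 ^ (n + 1)) : Set ℕ) := by
    have key : ∀ i j, i < j → i ∈ Finset.Ico (2 ^ n) (2 ^ (n + 1)) →
        j ∈ Finset.Ico (2 ^ n) (2 ^ (n + 1)) →
        (fun S : C => c S i) ≠ (fun S : C => c S j) := by
      intro i j hij hi hj heq
      rw [Finset.mem_Ico] at hi hj
      have hk : ec i j ∈ block n := by
        rw [mem_block, ea_ec, eb_ec hij]
        exact ⟨hi.1, hj.2⟩
      obtain ⟨S, hS, hkS⟩ := hn hk
      have := hc ⟨S, hS⟩ (ec i j) ⟨hkS, hk⟩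
      rw [ea_ec, eb_ec hij] at this
      exact this (congrFun heq ⟨S, hS⟩)
    intro i hi j hj heq
    rcases lt_trichotomy i j with h | h | h
    · exact absurd heq (key i j h hi hj)
    · exact h
    · exact absurd heq.symm (key j i h hj hi)
  have hcard := Finset.card_le_card_of_injOn (s := Finset.Ico (2 ^ n) (2 ^ (n + 1)))
    (t := (Finset.univ : Finset (C → Bool))) _ (fun v _ => Finset.mem_univ _) hinj
  rw [Nat.card_Ico, Finset.card_univ, Fintype.card_fun, Fintype.card_bool] at hcard
  have h2 : 2 ^ (n + 1) - 2 ^ n = 2 ^ n := by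
    rw [pow_succ]; omega
  rw [h2] at hcard
  have := (Nat.pow_le_pow_iff_right (a := 2) (by norm_num)).1 hcard
  omega

end Pool.Agent.W_MP_8d662a_an
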